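import Pool.Agent.V11276.TM

/-!
# MP_58bd73_nt: sign exceptions of powers of the Thue-Morse generating function

Q1 is FALSE, already for `m = 2`: neither `A_{2,0}` nor `A_{2,1}` has asymptotic density `0`
(the proportions stay bounded away from `0`).

Proof: with `a = t_2(N)`, `b = t_2(N-1)` one has `t_2(128N+84) = -3a+7b`, `t_2(256N+84) = -3a-17b`,
`t_2(1024N+750) = -5a+33b`.  If `a > 0` then `-3a+7b` and `-3a-17b` are not both positive; if
`a < 0` then `-3a-17b` and `-5a+33b` are not both negative.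
-/

namespace Pool.Agent.Results.MP_58bd73_nt.NotDensityZero

open PowerSeries Filter Topology

/-- The formal power series `F(x) = ∏_{i ≥ 0} (1 - x^(2^i))`: its `n`-th coefficient is the `n`-th
coefficient of the product of the factors with `i ≤ n` (the other factors are `1` modulo
`x^(n+1)`). -/
noncomputable def F : ℤ⟦X⟧ :=
  PowerSeries.mk fun n => coeff n (∏ i ∈ Finset.range (n + 1), (1 - (X : ℤ⟦X⟧) ^ (2 ^ i)))

/-- `t m n = t_m(n)`, the coefficient of `x^n` in `F(x)^m`. -/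
noncomputable def t (m n : ℕ) : ℤ := coeff n (F ^ m)

/-- `A_{m,j}`, the set of `n` with `sgn t_m(3n+j) ≠ (-1)^j`. -/
def A (m j : ℕ) : Set ℕ := {n | (t m (3 * n + j)).sign ≠ (-1) ^ j}

/-- asymptotic density `0` -/
def DensityZero (S : Set ℕ) : Prop :=
  Tendsto (fun N : ℕ => ((S ∩ Set.Iio N).ncard : ℝ) / N) atTop (𝓝 0)

/-- The statement of Q1. -/
def Q1 : Prop := ∀ m : ℕ, 2 ≤ m → ∀ j : ℕ, j < 2 → (A m j).Infinite ∧ DensityZero (A m j)

theorem r1 (x : ℕ) : t 2 (2 * x + 1) = -2 * t 2 x := by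
  have h := Pool.Agent.V11276.TM.t_rec 2 (2 * x + 1)
  rw [Finset.sum_range_succ, Finset.sum_range_succ, Finset.sum_range_one,
    if_neg (by omega), if_pos (by omega), if_neg (by omega),
    show (2 * x + 1 - 1) / 2 = x by omega] at h
  have h' : t 2 (2 * x + 1) = (-1) ^ 0 * ((Nat.choose 2 0 : ℕ) : ℤ) * 0 +
    (-1) ^ 1 * ((Nat.choose 2 1 : ℕ) : ℤ) * t 2 x + (-1) ^ 2 * ((Nat.choose 2 2 : ℕ) : ℤ) * 0 := h
  rw [h', show Nat.choose 2 1 = 2 by decide]
  push_cast
  ring

theorem r2 (x : ℕ) : t 2 (2 * x + 2) = t 2 (x + 1) + t 2 x := by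
  have h := Pool.Agent.V11276.TM.t_rec 2 (2 * x + 2)
  rw [Finset.sum_range_succ, Finset.sum_range_succ, Finset.sum_range_one,
    if_pos (by omega), if_neg (by omega), if_pos (by omega),
    show (2 * x + 2 - 0) / 2 = x + 1 by omega, show (2 * x + 2 - 2) / 2 = x by omega] at h
  have h' : t 2 (2 * x + 2) = (-1) ^ 0 * ((Nat.choose 2 0 : ℕ) : ℤ) * t 2 (x + 1) +
    (-1) ^ 1 * ((Nat.choose 2 1 : ℕ) : ℤ) * 0 + (-1) ^ 2 * ((Nat.choose 2 2 : ℕ) : ℤ) * t 2 x := h
  rw [h', show Nat.choose 2 0 = 1 by decide, show Nat.choose 2 2 = 1 by decide]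
  push_cast
  ring

theorem t0 : t 2 0 = 1 := Pool.Agent.V11276.TM.t_zero 2

theorem w7_84 (z : ℕ) : t 2 (128 * z + 212) = (-3) * t 2 (z + 1) + (7) * t 2 z := by
  set a := t 2 (z + 1) with ha
  set b := t 2 z with hb
  have p0 : t 2 (1 * z + 1) = (1) * a + (0) * b := by rw [one_mul, ← ha]; ring
  have q0 : t 2 (1 * z + 0) = (0) * a + (1) * b := by rw [one_mul, add_zero, ← hb]; ring
  have p1 : t 2 (2 * z + 3) = (-2) * a + (0) * b := by
    have h := r1 (1 * z + 1); rw [p0] at h; rw [show 2 * z + 3 = 2 * (1 * z + 1) + 1 by ring, h]; ring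
  have q1 : t 2 (2 * z + 2) = (1) * a + (1) * b := by
    have h := r2 (1 * z + 0); rw [show 1 * z + 0 + 1 = 1 * z + 1 by ring, p0, q0] at h; rw [show 2 * z + 2 = 2 * (1 * z + 0) + 2 by ring, h]; ring
  have p2 : t 2 (4 * z + 6) = (-1) * a + (1) * b := by
    have h := r2 (2 * z + 2); rw [show 2 * z + 2 + 1 = 2 * z + 3 by ring, p1, q1] at h; rw [show 4 * z + 6 = 2 * (2 * z + 2) + 2 by ring, h]; ring
  have q2 : t 2 (4 * z + 5) = (-2) * a + (-2) * b := by
    have h := r1 (2 * z + 2); rw [q1] at h; rw [show 4 * z + 5 = 2 * (2 * z + 2) + 1 by ring, h]; ring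
  have p3 : t 2 (8 * z + 13) = (2) * a + (-2) * b := by
    have h := r1 (4 * z + 6); rw [p2] at h; rw [show 8 * z + 13 = 2 * (4 * z + 6) + 1 by ring, h]; ring
  have q3 : t 2 (8 * z + 12) = (-3) * a + (-1) * b := by
    have h := r2 (4 * z + 5); rw [show 4 * z + 5 + 1 = 4 * z + 6 by ring, p2, q2] at h; rw [show 8 * z + 12 = 2 * (4 * z + 5) + 2 by ring, h]; ring
  have p4 : t 2 (16 * z + 26) = (-1) * a + (-3) * b := by
    have h := r2 (8 * z + 12); rw [show 8 * z + 12 + 1 = 8 * z + 13 by ring, p3, q3] at h; rw [show 16 * z + 26 = 2 * (8 * z + 12) + 2 by ring, h]; ring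
  have q4 : t 2 (16 * z + 25) = (6) * a + (2) * b := by
    have h := r1 (8 * z + 12); rw [q3] at h; rw [show 16 * z + 25 = 2 * (8 * z + 12) + 1 by ring, h]; ring
  have p5 : t 2 (32 * z + 53) = (2) * a + (6) * b := by
    have h := r1 (16 * z + 26); rw [p4] at h; rw [show 32 * z + 53 = 2 * (16 * z + 26) + 1 by ring, h]; ring
  have q5 : t 2 (32 * z + 52) = (5) * a + (-1) * b := by
    have h := r2 (16 * z + 25); rw [show 16 * z + 25 + 1 = 16 * z + 26 by ring, p4, q4] at h; rw [show 32 * z + 52 = 2 * (16 * z + 25) + 2 by ring, h]; ring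
  have p6 : t 2 (64 * z + 106) = (7) * a + (5) * b := by
    have h := r2 (32 * z + 52); rw [show 32 * z + 52 + 1 = 32 * z + 53 by ring, p5, q5] at h; rw [show 64 * z + 106 = 2 * (32 * z + 52) + 2 by ring, h]; ring
  have q6 : t 2 (64 * z + 105) = (-10) * a + (2) * b := by
    have h := r1 (32 * z + 52); rw [q5] at h; rw [show 64 * z + 105 = 2 * (32 * z + 52) + 1 by ring, h]; ring
  have p7 : t 2 (128 * z + 212) = (-3) * a + (7) * b := by
    have h := r2 (64 * z + 105); rw [show 64 * z + 105 + 1 = 64 * z + 106 by ring, p6, q6] at h; rw [show 128 * z + 212 = 2 * (64 * z + 105) + 2 by ring, h]; ring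
  have q7 : t 2 (128 * z + 211) = (20) * a + (-4) * b := by
    have h := r1 (64 * z + 105); rw [q6] at h; rw [show 128 * z + 211 = 2 * (64 * z + 105) + 1 by ring, h]; ring
  exact p7

theorem w8_84 (z : ℕ) : t 2 (256 * z + 340) = (-3) * t 2 (z + 1) + (-17) * t 2 z := by
  set a := t 2 (z + 1) with ha
  set b := t 2 z with hb
  have p0 : t 2 (1 * z + 1) = (1) * a + (0) * b := by rw [one_mul, ← ha]; ring
  have q0 : t 2 (1 * z + 0) = (0) * a + (1) * b := by rw [one_mul, add_zero, ← hb]; ring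
  have p1 : t 2 (2 * z + 2) = (1) * a + (1) * b := by
    have h := r2 (1 * z + 0); rw [show 1 * z + 0 + 1 = 1 * z + 1 by ring, p0, q0] at h; rw [show 2 * z + 2 = 2 * (1 * z + 0) + 2 by ring, h]; ring
  have q1 : t 2 (2 * z + 1) = (0) * a + (-2) * b := by
    have h := r1 (1 * z + 0); rw [q0] at h; rw [show 2 * z + 1 = 2 * (1 * z + 0) + 1 by ring, h]; ring
  have p2 : t 2 (4 * z + 5) = (-2) * a + (-2) * b := by
    have h := r1 (2 * z + 2); rw [p1] at h; rw [show 4 * z + 5 = 2 * (2 * z + 2) + 1 by ring, h]; ring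
  have q2 : t 2 (4 * z + 4) = (1) * a + (-1) * b := by
    have h := r2 (2 * z + 1); rw [show 2 * z + 1 + 1 = 2 * z + 2 by ring, p1, q1] at h; rw [show 4 * z + 4 = 2 * (2 * z + 1) + 2 by ring, h]; ring
  have p3 : t 2 (8 * z + 10) = (-1) * a + (-3) * b := by
    have h := r2 (4 * z + 4); rw [show 4 * z + 4 + 1 = 4 * z + 5 by ring, p2, q2] at h; rw [show 8 * z + 10 = 2 * (4 * z + 4) + 2 by ring, h]; ring
  have q3 : t 2 (8 * z + 9) = (-2) * a + (2) * b := by
    have h := r1 (4 * z + 4); rw [q2] at h; rw [show 8 * z + 9 = 2 * (4 * z + 4) + 1 by ring, h]; ring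
  have p4 : t 2 (16 * z + 21) = (2) * a + (6) * b := by
    have h := r1 (8 * z + 10); rw [p3] at h; rw [show 16 * z + 21 = 2 * (8 * z + 10) + 1 by ring, h]; ring
  have q4 : t 2 (16 * z + 20) = (-3) * a + (-1) * b := by
    have h := r2 (8 * z + 9); rw [show 8 * z + 9 + 1 = 8 * z + 10 by ring, p3, q3] at h; rw [show 16 * z + 20 = 2 * (8 * z + 9) + 2 by ring, h]; ring
  have p5 : t 2 (32 * z + 42) = (-1) * a + (5) * b := by
    have h := r2 (16 * z + 20); rw [show 16 * z + 20 + 1 = 16 * z + 21 by ring, p4, q4] at h; rw [show 32 * z + 42 = 2 * (16 * z + 20) + 2 by ring, h]; ring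
  have q5 : t 2 (32 * z + 41) = (6) * a + (2) * b := by
    have h := r1 (16 * z + 20); rw [q4] at h; rw [show 32 * z + 41 = 2 * (16 * z + 20) + 1 by ring, h]; ring
  have p6 : t 2 (64 * z + 85) = (2) * a + (-10) * b := by
    have h := r1 (32 * z + 42); rw [p5] at h; rw [show 64 * z + 85 = 2 * (32 * z + 42) + 1 by ring, h]; ring
  have q6 : t 2 (64 * z + 84) = (5) * a + (7) * b := by
    have h := r2 (32 * z + 41); rw [show 32 * z + 41 + 1 = 32 * z + 42 by ring, p5, q5] at h; rw [show 64 * z + 84 = 2 * (32 * z + 41) + 2 by ring, h]; ring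
  have p7 : t 2 (128 * z + 170) = (7) * a + (-3) * b := by
    have h := r2 (64 * z + 84); rw [show 64 * z + 84 + 1 = 64 * z + 85 by ring, p6, q6] at h; rw [show 128 * z + 170 = 2 * (64 * z + 84) + 2 by ring, h]; ring
  have q7 : t 2 (128 * z + 169) = (-10) * a + (-14) * b := by
    have h := r1 (64 * z + 84); rw [q6] at h; rw [show 128 * z + 169 = 2 * (64 * z + 84) + 1 by ring, h]; ring
  have p8 : t 2 (256 * z + 340) = (-3) * a + (-17) * b := by
    have h := r2 (128 * z + 169); rw [show 128 * z + 169 + 1 = 128 * z + 170 by ring, p7, q7] at h; rw [show 256 * z + 340 = 2 * (128 * z + 169) + 2 by ring, h]; ring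
  have q8 : t 2 (256 * z + 339) = (20) * a + (28) * b := by
    have h := r1 (128 * z + 169); rw [q7] at h; rw [show 256 * z + 339 = 2 * (128 * z + 169) + 1 by ring, h]; ring
  exact p8

theorem w10_750 (z : ℕ) : t 2 (1024 * z + 1774) = (-5) * t 2 (z + 1) + (33) * t 2 z := by
  set a := t 2 (z + 1) with ha
  set b := t 2 z with hb
  have p0 : t 2 (1 * z + 1) = (1) * a + (0) * b := by rw [one_mul, ← ha]; ring
  have q0 : t 2 (1 * z + 0) = (0) * a + (1) * b := by rw [one_mul, add_zero, ← hb]; ring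
  have p1 : t 2 (2 * z + 3) = (-2) * a + (0) * b := by
    have h := r1 (1 * z + 1); rw [p0] at h; rw [show 2 * z + 3 = 2 * (1 * z + 1) + 1 by ring, h]; ring
  have q1 : t 2 (2 * z + 2) = (1) * a + (1) * b := by
    have h := r2 (1 * z + 0); rw [show 1 * z + 0 + 1 = 1 * z + 1 by ring, p0, q0] at h; rw [show 2 * z + 2 = 2 * (1 * z + 0) + 2 by ring, h]; ring
  have p2 : t 2 (4 * z + 6) = (-1) * a + (1) * b := by
    have h := r2 (2 * z + 2); rw [show 2 * z + 2 + 1 = 2 * z + 3 by ring, p1, q1] at h; rw [show 4 * z + 6 = 2 * (2 * z + 2) + 2 by ring, h]; ring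
  have q2 : t 2 (4 * z + 5) = (-2) * a + (-2) * b := by
    have h := r1 (2 * z + 2); rw [q1] at h; rw [show 4 * z + 5 = 2 * (2 * z + 2) + 1 by ring, h]; ring
  have p3 : t 2 (8 * z + 13) = (2) * a + (-2) * b := by
    have h := r1 (4 * z + 6); rw [p2] at h; rw [show 8 * z + 13 = 2 * (4 * z + 6) + 1 by ring, h]; ring
  have q3 : t 2 (8 * z + 12) = (-3) * a + (-1) * b := by
    have h := r2 (4 * z + 5); rw [show 4 * z + 5 + 1 = 4 * z + 6 by ring, p2, q2] at h; rw [show 8 * z + 12 = 2 * (4 * z + 5) + 2 by ring, h]; ring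
  have p4 : t 2 (16 * z + 27) = (-4) * a + (4) * b := by
    have h := r1 (8 * z + 13); rw [p3] at h; rw [show 16 * z + 27 = 2 * (8 * z + 13) + 1 by ring, h]; ring
  have q4 : t 2 (16 * z + 26) = (-1) * a + (-3) * b := by
    have h := r2 (8 * z + 12); rw [show 8 * z + 12 + 1 = 8 * z + 13 by ring, p3, q3] at h; rw [show 16 * z + 26 = 2 * (8 * z + 12) + 2 by ring, h]; ring
  have p5 : t 2 (32 * z + 55) = (8) * a + (-8) * b := by
    have h := r1 (16 * z + 27); rw [p4] at h; rw [show 32 * z + 55 = 2 * (16 * z + 27) + 1 by ring, h]; ring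
  have q5 : t 2 (32 * z + 54) = (-5) * a + (1) * b := by
    have h := r2 (16 * z + 26); rw [show 16 * z + 26 + 1 = 16 * z + 27 by ring, p4, q4] at h; rw [show 32 * z + 54 = 2 * (16 * z + 26) + 2 by ring, h]; ring
  have p6 : t 2 (64 * z + 110) = (3) * a + (-7) * b := by
    have h := r2 (32 * z + 54); rw [show 32 * z + 54 + 1 = 32 * z + 55 by ring, p5, q5] at h; rw [show 64 * z + 110 = 2 * (32 * z + 54) + 2 by ring, h]; ring
  have q6 : t 2 (64 * z + 109) = (10) * a + (-2) * b := by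
    have h := r1 (32 * z + 54); rw [q5] at h; rw [show 64 * z + 109 = 2 * (32 * z + 54) + 1 by ring, h]; ring
  have p7 : t 2 (128 * z + 221) = (-6) * a + (14) * b := by
    have h := r1 (64 * z + 110); rw [p6] at h; rw [show 128 * z + 221 = 2 * (64 * z + 110) + 1 by ring, h]; ring
  have q7 : t 2 (128 * z + 220) = (13) * a + (-9) * b := by
    have h := r2 (64 * z + 109); rw [show 64 * z + 109 + 1 = 64 * z + 110 by ring, p6, q6] at h; rw [show 128 * z + 220 = 2 * (64 * z + 109) + 2 by ring, h]; ring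
  have p8 : t 2 (256 * z + 443) = (12) * a + (-28) * b := by
    have h := r1 (128 * z + 221); rw [p7] at h; rw [show 256 * z + 443 = 2 * (128 * z + 221) + 1 by ring, h]; ring
  have q8 : t 2 (256 * z + 442) = (7) * a + (5) * b := by
    have h := r2 (128 * z + 220); rw [show 128 * z + 220 + 1 = 128 * z + 221 by ring, p7, q7] at h; rw [show 256 * z + 442 = 2 * (128 * z + 220) + 2 by ring, h]; ring
  have p9 : t 2 (512 * z + 887) = (-24) * a + (56) * b := by
    have h := r1 (256 * z + 443); rw [p8] at h; rw [show 512 * z + 887 = 2 * (256 * z + 443) + 1 by ring, h]; ring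
  have q9 : t 2 (512 * z + 886) = (19) * a + (-23) * b := by
    have h := r2 (256 * z + 442); rw [show 256 * z + 442 + 1 = 256 * z + 443 by ring, p8, q8] at h; rw [show 512 * z + 886 = 2 * (256 * z + 442) + 2 by ring, h]; ring
  have p10 : t 2 (1024 * z + 1774) = (-5) * a + (33) * b := by
    have h := r2 (512 * z + 886); rw [show 512 * z + 886 + 1 = 512 * z + 887 by ring, p9, q9] at h; rw [show 1024 * z + 1774 = 2 * (512 * z + 886) + 2 by ring, h]; ring
  have q10 : t 2 (1024 * z + 1773) = (-38) * a + (46) * b := by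
    have h := r1 (512 * z + 886); rw [q9] at h; rw [show 1024 * z + 1773 = 2 * (512 * z + 886) + 1 by ring, h]; ring
  exact p10


theorem t84 : t 2 84 = -3 := by
  have h1 : t 2 1 = -2 := by have h := r1 0; rw [t0] at h; simpa using h
  have h2 : t 2 2 = -1 := by have h := r2 0; rw [t0, show 0 + 1 = 1 by rfl, h1] at h; simpa using h
  have h4 : t 2 4 = -3 := by
    have h := r2 1; rw [h1, show 1 + 1 = 2 by rfl, h2] at h
    rw [show 4 = 2 * 1 + 2 by rfl, h]; norm_num
  have h5 : t 2 5 = 2 := by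
    have h := r1 2; rw [h2] at h; rw [show 5 = 2 * 2 + 1 by rfl, h]; norm_num
  have h9 : t 2 9 = 6 := by
    have h := r1 4; rw [h4] at h; rw [show 9 = 2 * 4 + 1 by rfl, h]; norm_num
  have h10 : t 2 10 = -1 := by
    have h := r2 4; rw [show 4 + 1 = 5 by rfl, h4, h5] at h
    rw [show 10 = 2 * 4 + 2 by rfl, h]; norm_num
  have h20 : t 2 20 = 5 := by
    have h := r2 9; rw [show 9 + 1 = 10 by rfl, h9, h10] at h
    rw [show 20 = 2 * 9 + 2 by rfl, h]; norm_num
  have h21 : t 2 21 = 2 := by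
    have h := r1 10; rw [h10] at h; rw [show 21 = 2 * 10 + 1 by rfl, h]; norm_num
  have h41 : t 2 41 = -10 := by
    have h := r1 20; rw [h20] at h; rw [show 41 = 2 * 20 + 1 by rfl, h]; norm_num
  have h42 : t 2 42 = 7 := by
    have h := r2 20; rw [show 20 + 1 = 21 by rfl, h20, h21] at h
    rw [show 42 = 2 * 20 + 2 by rfl, h]; norm_num
  have h := r2 41
  rw [show 41 + 1 = 42 by rfl, h41, h42] at h
  rw [show 84 = 2 * 41 + 2 by rfl, h]; norm_num

theorem mem0 {n : ℕ} (h : t 2 (3 * n) ≤ 0) : n ∈ A 2 0 := by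
  show (t 2 (3 * n + 0)).sign ≠ (-1) ^ 0
  rw [add_zero, pow_zero]
  intro h1
  rw [Int.sign_eq_one_iff_pos] at h1
  omega

theorem mem1 {n : ℕ} (h : 0 ≤ t 2 (3 * n + 1)) : n ∈ A 2 1 := by
  show (t 2 (3 * n + 1)).sign ≠ (-1) ^ 1
  rw [pow_one]
  intro h1
  rw [Int.sign_eq_neg_one_iff_neg] at h1
  omega

theorem key0 (n : ℕ) : n ∈ A 2 0 ∨ 128 * n + 28 ∈ A 2 0 ∨ 256 * n + 28 ∈ A 2 0 := by
  rcases Nat.eq_zero_or_pos n with rfl | hn
  · right; left
    apply mem0
    rw [show 3 * (128 * 0 + 28) = 84 by norm_num, t84]; norm_num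
  · obtain ⟨z, hz⟩ : ∃ z, 3 * n = z + 1 := ⟨3 * n - 1, by omega⟩
    have h1 := w7_84 z
    have h2 := w8_84 z
    rw [show 128 * z + 212 = 3 * (128 * n + 28) by omega] at h1
    rw [show 256 * z + 340 = 3 * (256 * n + 28) by omega] at h2
    rw [← hz] at h1 h2
    by_contra hcon
    push Not at hcon
    obtain ⟨c1, c2, c3⟩ := hcon
    have d1 : 0 < t 2 (3 * n) := by by_contra h; exact c1 (mem0 (by omega))
    have d2 : 0 < t 2 (3 * (128 * n + 28)) := by by_contra h; exact c2 (mem0 (by omega))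
    have d3 : 0 < t 2 (3 * (256 * n + 28)) := by by_contra h; exact c3 (mem0 (by omega))
    omega

theorem key1 (n : ℕ) : n ∈ A 2 1 ∨ 256 * n + 113 ∈ A 2 1 ∨ 1024 * n + 591 ∈ A 2 1 := by
  obtain ⟨z, hz⟩ : ∃ z, 3 * n = z := ⟨3 * n, rfl⟩
  have h1 := w8_84 z
  have h2 := w10_750 z
  rw [show 256 * z + 340 = 3 * (256 * n + 113) + 1 by omega] at h1
  rw [show 1024 * z + 1774 = 3 * (1024 * n + 591) + 1 by omega] at h2
  rw [← hz] at h1 h2
  by_contra hcon
  push Not at hcon
  obtain ⟨c1, c2, c3⟩ := hcon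
  have d1 : t 2 (3 * n + 1) < 0 := by by_contra h; exact c1 (mem1 (by omega))
  have d2 : t 2 (3 * (256 * n + 113) + 1) < 0 := by by_contra h; exact c2 (mem1 (by omega))
  have d3 : t 2 (3 * (1024 * n + 591) + 1) < 0 := by by_contra h; exact c3 (mem1 (by omega))
  omega

theorem count (S : Set ℕ) (f g : ℕ → ℕ) (hf : Function.Injective f) (hg : Function.Injective g)
    (c : ℕ) (hc : 1 ≤ c) (hfc : ∀ n M, n < M → f n < c * M) (hgc : ∀ n M, n < M → g n < c * M)
    (h : ∀ n, n ∈ S ∨ f n ∈ S ∨ g n ∈ S) (M : ℕ) : M ≤ 3 * (S ∩ Set.Iio (c * M)).ncard := by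
  classical
  set T := S ∩ Set.Iio (c * M) with hT
  have hfin : T.Finite := (Set.finite_Iio _).subset Set.inter_subset_right
  have hsub : (Finset.range M : Set ℕ) ⊆ T ∪ (f ⁻¹' T) ∪ (g ⁻¹' T) := by
    intro n hn
    have hn : n < M := by simpa using hn
    rcases h n with h | h | h
    · left; left
      exact ⟨h, lt_of_lt_of_le hn (Nat.le_mul_of_pos_left M (by omega))⟩
    · left; right
      exact ⟨h, hfc n M hn⟩
    · right
      exact ⟨h, hgc n M hn⟩
  have ff : (f ⁻¹' T).Finite := hfin.preimage hf.injOn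
  have gf : (g ⁻¹' T).Finite := hfin.preimage hg.injOn
  have h1 := Set.ncard_le_ncard hsub ((hfin.union ff).union gf)
  rw [Set.ncard_coe_finset, Finset.card_range] at h1
  have h2 := Set.ncard_union_le (T ∪ (f ⁻¹' T)) (g ⁻¹' T)
  have h3 := Set.ncard_union_le T (f ⁻¹' T)
  have h4 : (f ⁻¹' T).ncard ≤ T.ncard := by
    rw [← Set.ncard_image_of_injective _ hf]
    exact Set.ncard_le_ncard (Set.image_preimage_subset _ _) hfin
  have h5 : (g ⁻¹' T).ncard ≤ T.ncard := by
    rw [← Set.ncard_image_of_injective _ hg]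
    exact Set.ncard_le_ncard (Set.image_preimage_subset _ _) hfin
  omega

theorem count0 (M : ℕ) : M ≤ 3 * (A 2 0 ∩ Set.Iio (256 * M)).ncard :=
  count _ (fun n => 128 * n + 28) (fun n => 256 * n + 28) (fun x y h => by simpa using h)
    (fun x y h => by simpa using h) 256 (by norm_num) (fun n M h => by omega)
    (fun n M h => by omega) key0 M

theorem count1 (M : ℕ) : M ≤ 3 * (A 2 1 ∩ Set.Iio (1024 * M)).ncard :=
  count _ (fun n => 256 * n + 113) (fun n => 1024 * n + 591) (fun x y h => by simpa using h)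
    (fun x y h => by simpa using h) 1024 (by norm_num) (fun n M h => by omega)
    (fun n M h => by omega) key1 M

theorem not_density (S : Set ℕ) (c : ℕ) (hc : 1 ≤ c)
    (h : ∀ M : ℕ, M ≤ 3 * (S ∩ Set.Iio (c * M)).ncard) : ¬ DensityZero S := by
  intro hd
  have h1 : Tendsto (fun M : ℕ => c * M) atTop atTop :=
    tendsto_id.const_mul_atTop' (by omega)
  have h2 := hd.comp h1
  have hpos : (0 : ℝ) < 1 / (3 * c) := by
    have : (0 : ℝ) < c := by exact_mod_cast hc
    positivity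
  have h3 := (tendsto_order.1 h2).2 _ hpos
  obtain ⟨N, hN⟩ := (h3.and (eventually_ge_atTop 1)).exists
  obtain ⟨h4, h5⟩ := hN
  have h6 : ((N : ℕ) : ℝ) ≤ 3 * ((S ∩ Set.Iio (c * N)).ncard : ℝ) := by exact_mod_cast h N
  have hc' : (0 : ℝ) < c := by exact_mod_cast hc
  have hN' : (0 : ℝ) < N := by exact_mod_cast h5
  simp only [Function.comp] at h4
  rw [div_lt_div_iff₀ (by push_cast; positivity) (by positivity)] at h4
  push_cast at h4
  nlinarith

/-- Q1 is false; in fact for `m = 2` both sets `A_{2,0}`, `A_{2,1}` have positive lower density: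
at least `M/3` elements below `256 M`, respectively below `1024 M`. -/
theorem result : ¬ Q1 ∧ ¬ DensityZero (A 2 0) ∧ ¬ DensityZero (A 2 1) ∧
    (∀ M : ℕ, M ≤ 3 * (A 2 0 ∩ Set.Iio (256 * M)).ncard) ∧
    (∀ M : ℕ, M ≤ 3 * (A 2 1 ∩ Set.Iio (1024 * M)).ncard) := by
  refine ⟨fun h => ?_, not_density _ 256 (by norm_num) count0,
    not_density _ 1024 (by norm_num) count1, count0, count1⟩
  exact not_density _ 256 (by norm_num) count0 (h 2 le_rfl 0 (by norm_num)).2

end Pool.Agent.Results.MP_58bd73_nt.NotDensityZero
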